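import Pool.Agent.Helper86.QA.St3

/-!
# Project QD part A (MP_d112a4_gt), module FLT: layer cake for the flux
-/

set_option autoImplicit false

open MeasureTheory Matrix Set Topology
open scoped ENNReal ComplexConjugate

namespace Pool.Agent.Helper90.QA

open Pool.Agent.Helper86.QA

/-! ### the weight -/

/-- the weight `m s` -/
private noncomputable def ms (s : ℝ) : ℝ := max (s * (1 - s) - 1 / 8) 0

private theorem ms_cont : Continuous ms := by
  unfold ms
  fun_prop

private theorem ms_nonneg (s : ℝ) : 0 ≤ ms s := le_max_right _ _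

private theorem ms_le (s : ℝ) : ms s ≤ 1 := by
  unfold ms
  apply max_le
  · nlinarith [sq_nonneg (s - 1 / 2)]
  · norm_num

private theorem ms_ne {s : ℝ} (h : ms s ≠ 0) : 1 / 8 ≤ s ∧ s ≤ 7 / 8 := by
  have h1 : 0 < s * (1 - s) - 1 / 8 := by
    by_contra hh
    exact h (max_eq_right (not_lt.1 hh))
  constructor
  · nlinarith [sq_nonneg s]
  · nlinarith [sq_nonneg (1 - s)]

private theorem fi_meas {B : Set ℂ} (hB : Measurable (hv B)) :
    Measurable (fun p : Pt × ℝ => fi B (1 - p.2) p.1) := by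
  unfold fi
  exact Measurable.ite (measurableSet_lt (hB.comp measurable_fst)
    (measurable_const.sub measurable_snd)) measurable_const measurable_const

private theorem fi_nonneg (B : Set ℂ) (δ : ℝ) (x : Pt) : 0 ≤ fi B δ x := by
  unfold fi
  split_ifs <;> norm_num

private theorem fi_le (B : Set ℂ) (δ : ℝ) (x : Pt) : fi B δ x ≤ 1 := by
  unfold fi
  split_ifs <;> norm_num

private theorem fi_sub (B : Set ℂ) (δ : ℝ) (x y : Pt) : |fi B δ x - fi B δ y| ≤ 1 := by
  rw [abs_le]
  constructor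
  · linarith [fi_nonneg B δ x, fi_le B δ y]
  · linarith [fi_le B δ x, fi_nonneg B δ y]

private theorem kk_nonneg (x y : Pt) : 0 ≤ kk x y := by
  unfold kk
  split_ifs <;> norm_num

private theorem kk_ne {x y : Pt} (h : kk x y ≠ 0) : ch x y ≤ 2 := by
  by_contra hh
  exact h (by unfold kk; rw [if_neg hh])

/-- layer cake for one point -/
private theorem Th_eq {A B : Set ℂ} {x : Pt} (hAB : hv A x + hv B x = 1) (h0 : 0 ≤ hv A x)
    (h1 : hv A x ≤ 1) : Th (hv A x) = ∫ s in Ioo (0 : ℝ) 1, ms s * fi B (1 - s) x := by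
  have e : ∀ s, ms s * fi B (1 - s) x = (Iio (hv A x)).indicator ms s := by
    intro s
    unfold fi
    by_cases h : s < hv A x
    · rw [indicator_of_mem (show s ∈ Iio (hv A x) from h), if_pos (by linarith), mul_one]
    · rw [indicator_of_notMem (show s ∉ Iio (hv A x) from h), if_neg (by
        intro h2
        apply h
        linarith), mul_zero]
  rw [integral_congr_ae (Filter.Eventually.of_forall e), setIntegral_indicator measurableSet_Iio,
    Ioo_inter_Iio, min_eq_right h1]
  unfold Th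
  rw [intervalIntegral.integral_of_le h0, integral_Ioc_eq_integral_Ioo]
  rfl

private theorem ms_int {B : Set ℂ} (hB : Measurable (hv B)) (x : Pt) :
    IntegrableOn (fun s => ms s * fi B (1 - s) x) (Ioo (0 : ℝ) 1) := by
  have hf : Measurable (fun s : ℝ => fi B (1 - s) x) :=
    (fi_meas hB).comp (measurable_const.prodMk measurable_id)
  have hm : Measurable (fun s => ms s * fi B (1 - s) x) := ms_cont.measurable.mul hf
  refine Measure.integrableOn_of_bounded (M := 1) (by simp) hm.aestronglyMeasurable ?_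
  refine Filter.Eventually.of_forall fun s => ?_
  rw [Real.norm_eq_abs, abs_of_nonneg (mul_nonneg (ms_nonneg s) (fi_nonneg _ _ _))]
  exact mul_le_one₀ (ms_le s) (fi_nonneg _ _ _) (fi_le _ _ _)

section

variable {A B : Set ℂ} {Pi : Pt → ℂ}

/-- the integrand -/
private noncomputable def Hf (B : Set ℂ) (Pi : Pt → ℂ) (x : Pt) (s : ℝ) (y : Pt) : ℝ :=
  kk x y * (fi B (1 - s) x - fi B (1 - s) y) * QQ Pi x y

private theorem Hf_meas (hk : Measurable (fun p : Pt × Pt => kk p.1 p.2)) (hB : Measurable (hv B))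
    (hQ : Measurable (fun p : Pt × Pt => QQ Pi p.1 p.2)) :
    Measurable (fun p : (Pt × ℝ) × Pt => Hf B Pi p.1.1 p.1.2 p.2) := by
  unfold Hf
  have g1 : Measurable (fun p : (Pt × ℝ) × Pt => (p.1.1, p.2)) :=
    (measurable_fst.comp measurable_fst).prodMk measurable_snd
  have g3 : Measurable (fun p : (Pt × ℝ) × Pt => (p.2, p.1.2)) :=
    measurable_snd.prodMk (measurable_snd.comp measurable_fst)
  have h1 : Measurable (fun p : (Pt × ℝ) × Pt => kk p.1.1 p.2) := by
    have h := hk.comp g1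
    exact h
  have h2 : Measurable (fun p : (Pt × ℝ) × Pt => fi B (1 - p.1.2) p.1.1) := by
    have g2 : Measurable (fun p : (Pt × ℝ) × Pt => p.1) := measurable_fst
    have h := (fi_meas hB).comp g2
    exact h
  have h3 : Measurable (fun p : (Pt × ℝ) × Pt => fi B (1 - p.1.2) p.2) := by
    have h := (fi_meas hB).comp g3
    exact h
  have h4 : Measurable (fun p : (Pt × ℝ) × Pt => QQ Pi p.1.1 p.2) := by
    have h := hQ.comp g1
    exact h
  exact (h1.mul (h2.sub h3)).mul h4

private theorem Hf_le (hQ : ∀ x1 ∈ up, ∀ x0 ∈ up, ch x1 x0 ≤ 2 → |QQ Pi x1 x0| ≤ CQ) {x y : Pt}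
    (hx : x ∈ up) (hy : y ∈ up) (s : ℝ) : |Hf B Pi x s y| ≤ CQ * kk x y := by
  unfold Hf
  by_cases h : kk x y = 0
  · rw [h]
    simp
  · have h1 := hQ x hx y hy (kk_ne h)
    have h2 := fi_sub B (1 - s) x y
    rw [abs_mul, abs_mul, abs_of_nonneg (kk_nonneg x y)]
    calc kk x y * |fi B (1 - s) x - fi B (1 - s) y| * |QQ Pi x y| ≤ kk x y * 1 * CQ :=
          mul_le_mul (mul_le_mul_of_nonneg_left h2 (kk_nonneg x y)) h1 (abs_nonneg _)
            (mul_nonneg (kk_nonneg x y) zero_le_one)
      _ = CQ * kk x y := by ring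

private theorem Gf_fi (s : ℝ) (x : Pt) : Gf Pi (fi B (1 - s)) x = ∫ y, Hf B Pi x s y ∂vol := rfl

/-- Fubini for one point -/
private theorem stepA (hk : Measurable (fun p : Pt × Pt => kk p.1 p.2)) (hB : Measurable (hv B))
    (hQm : Measurable (fun p : Pt × Pt => QQ Pi p.1 p.2))
    (hQ : ∀ x1 ∈ up, ∀ x0 ∈ up, ch x1 x0 ≤ 2 → |QQ Pi x1 x0| ≤ CQ)
    (hKI : ∀ x ∈ up, Integrable (kk x) vol)
    (hAB : ∀ x ∈ up, hv A x + hv B x = 1) (h01 : ∀ x ∈ up, 0 ≤ hv A x ∧ hv A x ≤ 1) {x : Pt}
    (hx : x ∈ up) : Gf Pi (fun x => Th (hv A x)) x =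
      ∫ s in Ioo (0 : ℝ) 1, ms s * Gf Pi (fi B (1 - s)) x := by
  have hmeas : Measurable (fun p : Pt × ℝ => ms p.2 * Hf B Pi x p.2 p.1) := by
    have g : Measurable (fun p : Pt × ℝ => ((x, p.2), p.1)) :=
      (measurable_const.prodMk measurable_snd).prodMk measurable_fst
    have h1 := (Hf_meas hk hB hQm).comp g
    exact (ms_cont.measurable.comp measurable_snd).mul h1
  have hint : Integrable (Function.uncurry fun (y : Pt) (s : ℝ) => ms s * Hf B Pi x s y)
      (vol.prod (volume.restrict (Ioo (0 : ℝ) 1))) := by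
    have hb : Integrable (fun p : Pt × ℝ => (CQ * kk x p.1) * 1)
        (vol.prod (volume.restrict (Ioo (0 : ℝ) 1))) :=
      ((hKI x hx).const_mul CQ).mul_prod (integrable_const (1 : ℝ))
    refine hb.mono' hmeas.aestronglyMeasurable ?_
    have hup : ∀ᵐ p : Pt × ℝ ∂(vol.prod (volume.restrict (Ioo (0 : ℝ) 1))), p.1 ∈ up :=
      Measure.quasiMeasurePreserving_fst.ae ae_up
    filter_upwards [hup] with p hp
    simp only [Function.uncurry]
    rw [Real.norm_eq_abs, abs_mul, abs_of_nonneg (ms_nonneg _)]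
    have h1 := Hf_le (B := B) hQ hx hp p.2
    calc ms p.2 * |Hf B Pi x p.2 p.1| ≤ 1 * (CQ * kk x p.1) :=
          mul_le_mul (ms_le _) h1 (abs_nonneg _) zero_le_one
      _ = CQ * kk x p.1 * 1 := by ring
  have e1 : Gf Pi (fun x => Th (hv A x)) x =
      ∫ y, (∫ s in Ioo (0 : ℝ) 1, ms s * Hf B Pi x s y) ∂vol := by
    unfold Gf
    apply integral_congr_ae
    filter_upwards [ae_up] with y hy
    have h1 : Th (hv A x) - Th (hv A y) =
        ∫ s in Ioo (0 : ℝ) 1, (ms s * fi B (1 - s) x - ms s * fi B (1 - s) y) := by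
      rw [integral_sub (ms_int hB x) (ms_int hB y), Th_eq (hAB x hx) (h01 x hx).1 (h01 x hx).2,
        Th_eq (hAB y hy) (h01 y hy).1 (h01 y hy).2]
    rw [h1, ← integral_const_mul, ← integral_mul_const]
    apply integral_congr_ae
    refine Filter.Eventually.of_forall fun s => ?_
    simp only [Hf]
    ring
  rw [e1, integral_integral_swap hint]
  apply integral_congr_ae
  refine Filter.Eventually.of_forall fun s => ?_
  simp only
  rw [integral_const_mul, Gf_fi]

end

/-- module FLT -/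
theorem hFLT (hCHI : StCHI) (hKRN : StKRN) (hHME : StHME) (_hACU : StACU) (hFVS : StFVS)
    (hQQB : StQQB) (_hFLA : StFLA) (hFLB : StFLB) (hFLI : StFLI) : StFLT := by
  intro Γ _ ρ A B hKD σ hσ Pi hPi D hD δ hδ
  have hk : Measurable (fun p : Pt × Pt => kk p.1 p.2) := hCHI.2.2.2.2.2
  have mA' : MeasurableSet A := hKD.opA.measurableSet
  have mB' : MeasurableSet B := hKD.opB.measurableSet
  have hA : Measurable (hv A) := (hHME.2.2.1 A mA').1
  have hB : Measurable (hv B) := (hHME.2.2.1 B mB').1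
  obtain ⟨q1, q2, -, -⟩ := hQQB Γ ρ σ hσ Pi hPi
  have hKI : ∀ x ∈ up, Integrable (kk x) vol := fun x hx => (hKRN.2.2 x hx).1
  have hKV : ∀ x ∈ up, ∫ y, kk x y ∂vol = VV := fun x hx => (hKRN.2.2 x hx).2
  have hAB : ∀ x ∈ up, hv A x + hv B x = 1 := fun x hx =>
    hHME.2.1 A B x mA' mB' hKD.dis hKD.nul hx
  have h01 : ∀ x ∈ up, 0 ≤ hv A x ∧ hv A x ≤ 1 := fun x hx => (hHME.1 A x mA' hx).2
  have hll : 0 < ll := by
    unfold ll
    positivity
  have hll2 : 0 < ll ^ 2 := by positivity
  -- the slab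
  obtain ⟨ε, hε⟩ : ∃ ε : ℝ, ε = 1 / 8 / ll ^ 2 := ⟨_, rfl⟩
  have hε0 : 0 < ε := by
    rw [hε]
    positivity
  have hfin := hFVS Γ ρ A B hKD D hD ε hε0
  have hslab : MeasurableSet {x : Pt | ε ≤ hv A x ∧ hv A x ≤ 1 - ε} :=
    (measurableSet_le measurable_const hA).inter (measurableSet_le hA measurable_const)
  -- bound for the flux density
  have hbound : ∀ x ∈ up, ∀ s ∈ Ioo (0 : ℝ) 1, |ms s * Gf Pi (fi B (1 - s)) x| ≤
      {x : Pt | ε ≤ hv A x ∧ hv A x ≤ 1 - ε}.indicator (fun _ => CQ * VV) x := by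
    intro x hx s hs
    by_cases hm : ms s = 0
    · rw [hm, zero_mul, abs_zero]
      apply indicator_nonneg
      intro _ _
      unfold CQ
      have := hKRN.1
      positivity
    · obtain ⟨s1, s2⟩ := ms_ne hm
      by_cases hxs : x ∈ {x : Pt | ε ≤ hv A x ∧ hv A x ≤ 1 - ε}
      · rw [indicator_of_mem hxs, abs_mul, abs_of_nonneg (ms_nonneg s), Gf_fi]
        have h1 : ‖∫ y, Hf B Pi x s y ∂vol‖ ≤ ∫ y, CQ * kk x y ∂vol := by
          apply norm_integral_le_of_norm_le ((hKI x hx).const_mul CQ)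
          filter_upwards [ae_up] with y hy
          exact Hf_le q2 hx hy s
        rw [integral_const_mul, hKV x hx, Real.norm_eq_abs] at h1
        calc ms s * |∫ y, Hf B Pi x s y ∂vol| ≤ 1 * (CQ * VV) :=
              mul_le_mul (ms_le s) h1 (abs_nonneg _) zero_le_one
          _ = CQ * VV := one_mul _
      · have h0 : Gf Pi (fi B (1 - s)) x = 0 := by
          rw [Gf_fi]
          apply integral_eq_zero_of_ae
          filter_upwards [ae_up] with y hy
          change kk x y * (fi B (1 - s) x - fi B (1 - s) y) * QQ Pi x y = 0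
          by_cases hkk : kk x y = 0
          · rw [hkk]
            ring
          · have hc := kk_ne hkk
            have he : fi B (1 - s) x = fi B (1 - s) y := by
              by_contra hne
              have hs' : (1 - s) ∈ Ioo (0 : ℝ) 1 := ⟨by linarith [hs.2], by linarith [hs.1]⟩
              obtain ⟨b1, b2, b3⟩ := (hFLB Γ ρ A B hKD D hD (1 - s) hs').2.2.2.2.2 x hx y hy hc hne
              apply hxs
              have hsum := hAB x hx
              have e1 : ε ≤ (1 - s) / ll ^ 2 := by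
                rw [hε]
                exact div_le_div_of_nonneg_right (by linarith) hll2.le
              have e2 : ε ≤ (1 - (1 - s)) / ll ^ 2 := by
                rw [hε]
                exact div_le_div_of_nonneg_right (by linarith) hll2.le
              exact ⟨by linarith, by linarith⟩
            rw [he]
            ring
        rw [h0, mul_zero, abs_zero, indicator_of_notMem hxs]
  -- Fubini over `D`
  have hGm : Measurable (fun p : Pt × ℝ => ms p.2 * Gf Pi (fi B (1 - p.2)) p.1) := by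
    have h1 := (Hf_meas (B := B) (Pi := Pi) hk hB q1).stronglyMeasurable.integral_prod_right'
      (ν := vol)
    exact (ms_cont.measurable.comp measurable_snd).mul h1.measurable
  have hint : Integrable (Function.uncurry fun (x : Pt) (s : ℝ) => ms s * Gf Pi (fi B (1 - s)) x)
      ((vol.restrict D).prod (volume.restrict (Ioo (0 : ℝ) 1))) := by
    have hb1 : Integrable ({x : Pt | ε ≤ hv A x ∧ hv A x ≤ 1 - ε}.indicator
        (fun _ => CQ * VV)) (vol.restrict D) := by
      rw [integrable_indicator_iff hslab]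
      refine integrableOn_const ?_ (by finiteness)
      rw [Measure.restrict_apply hslab, inter_comm]
      exact hfin.ne
    have hb : Integrable (fun p : Pt × ℝ =>
        {x : Pt | ε ≤ hv A x ∧ hv A x ≤ 1 - ε}.indicator (fun _ => CQ * VV) p.1 * 1)
        ((vol.restrict D).prod (volume.restrict (Ioo (0 : ℝ) 1))) :=
      hb1.mul_prod (integrable_const (1 : ℝ))
    refine hb.mono' hGm.aestronglyMeasurable ?_
    have hup : ∀ᵐ p : Pt × ℝ ∂((vol.restrict D).prod (volume.restrict (Ioo (0 : ℝ) 1))),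
        p.1 ∈ D := Measure.quasiMeasurePreserving_fst.ae (ae_restrict_mem hD.mD)
    have hup2 : ∀ᵐ p : Pt × ℝ ∂((vol.restrict D).prod (volume.restrict (Ioo (0 : ℝ) 1))),
        p.2 ∈ Ioo (0 : ℝ) 1 :=
      Measure.quasiMeasurePreserving_snd.ae (ae_restrict_mem measurableSet_Ioo)
    filter_upwards [hup, hup2] with p hp hp2
    rw [mul_one]
    exact hbound p.1 (hD.sub hp) p.2 hp2
  have e1 : Fl D Pi (fun x => Th (hv A x)) =
      ∫ x in D, (∫ s in Ioo (0 : ℝ) 1, ms s * Gf Pi (fi B (1 - s)) x) ∂vol := by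
    unfold Fl
    apply setIntegral_congr_fun hD.mD
    intro x hx
    exact stepA hk hB q1 q2 hKI hAB h01 (hD.sub hx)
  rw [e1, integral_integral_swap hint]
  have e2 : ∀ s ∈ Ioo (0 : ℝ) 1, ∫ x in D, ms s * Gf Pi (fi B (1 - s)) x ∂vol =
      ms s * Fl D Pi (fi B δ) := by
    intro s hs
    rw [integral_const_mul]
    have hs' : (1 - s) ∈ Ioo (0 : ℝ) 1 := ⟨by linarith [hs.2], by linarith [hs.1]⟩
    rw [← hFLI Γ ρ A B hKD σ hσ Pi hPi D hD (1 - s) hs' δ hδ]
    rfl
  rw [setIntegral_congr_fun measurableSet_Ioo e2, integral_mul_const]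
  congr 1
  unfold Th
  rw [intervalIntegral.integral_of_le zero_le_one, integral_Ioc_eq_integral_Ioo]
  rfl

end Pool.Agent.Helper90.QA
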